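import Mathlib
import Pool.Agent.Helper873.Birch.Main

/-!
# Colored Tverberg of type B for colour classes in flats through a common flat, every `r`
-/

set_option autoImplicit false

open Module

namespace Pool.Agent.Results.MP_90aff6_co.ConcurrentFlats

/-- homogeneous coordinates of a point -/
private noncomputable def hat {d : ℕ} (v : EuclideanSpace ℝ (Fin d)) :
    EuclideanSpace ℝ (Fin d) × ℝ := (v, 1)

/-- the linear functional on homogeneous coordinates given by an affine functional -/
private noncomputable def lin {d : ℕ} (g : EuclideanSpace ℝ (Fin d) →ᵃ[ℝ] ℝ) :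
    (EuclideanSpace ℝ (Fin d) × ℝ) →ₗ[ℝ] ℝ :=
  LinearMap.coprod g.linear ((g 0) • LinearMap.id)

private lemma lin_apply {d : ℕ} (g : EuclideanSpace ℝ (Fin d) →ᵃ[ℝ] ℝ)
    (x : EuclideanSpace ℝ (Fin d) × ℝ) : lin g x = g.linear x.1 + g 0 * x.2 := by
  simp [lin, LinearMap.coprod_apply]

private lemma lin_hat {d : ℕ} (g : EuclideanSpace ℝ (Fin d) →ᵃ[ℝ] ℝ)
    (v : EuclideanSpace ℝ (Fin d)) : lin g (hat v) = g v := by
  rw [lin_apply]
  have := g.linearMap_vsub v 0
  simp only [vsub_eq_sub, sub_zero] at this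
  simp [hat, this]

private lemma surj {d n : ℕ} (g : Fin n → (EuclideanSpace ℝ (Fin d) →ᵃ[ℝ] ℝ))
    (hg : LinearIndependent ℝ g) :
    Function.Surjective (LinearMap.pi (fun i => lin (g i)) :
      (EuclideanSpace ℝ (Fin d) × ℝ) →ₗ[ℝ] (Fin n → ℝ)) := by
  rw [← LinearMap.dualMap_injective_iff]
  intro φ ψ h
  rw [← sub_eq_zero]
  rw [← sub_eq_zero, ← map_sub] at h
  set χ := φ - ψ with hχ
  have h1 : ∑ i, χ (Pi.single i 1) • g i = 0 := by
    ext v
    have h2 := LinearMap.congr_fun h (hat v)
    rw [LinearMap.dualMap_apply] at h2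
    have h3 : (LinearMap.pi (fun i => lin (g i)) :
      (EuclideanSpace ℝ (Fin d) × ℝ) →ₗ[ℝ] (Fin n → ℝ)) (hat v) = fun i => g i v := by
      funext i
      rw [LinearMap.pi_apply, lin_hat]
    rw [h3] at h2
    have h4 : (fun i => g i v) = ∑ i, (g i v) • (Pi.single i (1 : ℝ) : Fin n → ℝ) := by
      funext i
      simp [Finset.sum_apply, Pi.single_apply]
    rw [h4, map_sum] at h2
    simp only [map_smul, smul_eq_mul, LinearMap.zero_apply] at h2
    rw [show (0 : EuclideanSpace ℝ (Fin d) →ᵃ[ℝ] ℝ) v = 0 from rfl, ← h2]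
    have h5 : (∑ i, χ (Pi.single i 1) • g i) v = ∑ i, χ (Pi.single i 1) * g i v := by
      have : ∀ s : Finset (Fin n), (∑ i ∈ s, χ (Pi.single i 1) • g i) v =
          ∑ i ∈ s, χ (Pi.single i 1) * g i v := by
        intro s
        classical
        induction s using Finset.induction_on with
        | empty => simp
        | insert a s ha ih => rw [Finset.sum_insert ha, Finset.sum_insert ha]; simp [ih]
      exact this _
    rw [h5]
    exact Finset.sum_congr rfl fun i _ => mul_comm _ _
  have h2 := Fintype.linearIndependent_iff.1 hg _ h1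
  refine LinearMap.pi_ext' fun i => ?_
  ext
  simpa using h2 i

/-- the abstract equalising step -/
private lemma equalise {d n k c : ℕ} (H : Submodule ℝ (EuclideanSpace ℝ (Fin d) × ℝ))
    (hH : finrank ℝ H = c) (hk : n * c + 1 ≤ k + 1)
    (b : Fin (k + 1) → Fin (n + 1) → EuclideanSpace ℝ (Fin d))
    (m : Fin (k + 1) → Fin (n + 1) → ℝ) (hm : ∀ j t, 0 ≤ m j t) (hm' : ∀ j, 0 < ∑ t, m j t)
    (hmem : ∀ j t t', m j t • hat (b j t) - m j t' • hat (b j t') ∈ H) :
    ∃ s : Fin (k + 1) → Fin (n + 1),
      (⋂ i : Fin (n + 1), convexHull ℝ (Set.range (fun j => b j (i + s j)))).Nonempty := by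
  classical
  let Y : Fin (k + 1) → Fin (n + 1) → EuclideanSpace ℝ (Fin d) × ℝ := fun j t => m j t • hat (b j t)
  let w : Fin (k + 1) → Fin (n + 1) → (Fin n → H) := fun j s i =>
    ⟨Y j (i.succ + s) - Y j (0 + s), hmem j _ _⟩
  have hfin : finrank ℝ (Fin n → H) = n * c := by
    rw [Module.finrank_pi_fintype]
    simp [hH]
  have h0 : ∀ j, (0 : Fin n → H) ∈ convexHull ℝ (Set.range (w j)) := by
    intro j
    have h1 := (convex_convexHull ℝ (Set.range (w j))).sum_mem
      (t := (Finset.univ : Finset (Fin (n + 1))))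
      (w := fun _ => (1 / ((n : ℝ) + 1))) (z := w j) (fun _ _ => by positivity)
      (by
        rw [Finset.sum_const, Finset.card_univ, Fintype.card_fin, nsmul_eq_mul]
        push_cast
        field_simp)
      (fun s _ => subset_convexHull ℝ _ ⟨s, rfl⟩)
    convert h1 using 1
    rw [← Finset.smul_sum]
    have h2 : ∑ s, w j s = 0 := by
      funext i
      apply Subtype.ext
      rw [Finset.sum_apply, AddSubmonoidClass.coe_finsetSum]
      show ∑ s, (Y j (i.succ + s) - Y j (0 + s)) = 0
      rw [Finset.sum_sub_distrib, sub_eq_zero]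
      exact (Equiv.sum_comp (Equiv.addLeft i.succ) (fun t => Y j t)).trans
        (Equiv.sum_comp (Equiv.addLeft (0 : Fin (n + 1))) (fun t => Y j t)).symm
    rw [h2, smul_zero]
  obtain ⟨s, hs⟩ := Pool.Agent.Helper873.Birch.col_car w (by rw [hfin]; simpa using hk) h0
  refine ⟨s, ?_⟩
  rw [convexHull_range_eq_exists_affineCombination] at hs
  obtain ⟨S, x, hx0, hx1, hx⟩ := hs
  rw [Finset.affineCombination_eq_linear_combination _ _ _ hx1] at hx
  let X : Fin (k + 1) → ℝ := fun j => if j ∈ S then x j else 0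
  have hX0 : ∀ j, 0 ≤ X j := by
    intro j
    simp only [X]
    split_ifs with h
    · exact hx0 j h
    · exact le_rfl
  have hX1 : ∑ j, X j = 1 := by
    rw [← hx1]; simp [X]
  have hXw : ∑ j, X j • w j (s j) = 0 := by
    rw [← hx]
    simp only [X, ite_smul, zero_smul]
    rw [Finset.sum_ite_mem, Finset.univ_inter]
  let Z : Fin (n + 1) → EuclideanSpace ℝ (Fin d) × ℝ := fun i => ∑ j, X j • Y j (i + s j)
  have hZ : ∀ i, Z i = Z 0 := by
    intro i
    refine Fin.cases rfl (fun i' => ?_) i
    have h1 := congrFun hXw i'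
    rw [Finset.sum_apply] at h1
    have h2 := congrArg (fun y : H => (y : EuclideanSpace ℝ (Fin d) × ℝ)) h1
    simp only [AddSubmonoidClass.coe_finsetSum] at h2
    have h3 : ∑ j, X j • (Y j (i'.succ + s j) - Y j (0 + s j)) = 0 := by
      simpa [w] using h2
    simp only [smul_sub, Finset.sum_sub_distrib] at h3
    exact sub_eq_zero.1 h3
  let lam : Fin (n + 1) → Fin (k + 1) → ℝ := fun i j => X j * m j (i + s j)
  have hlam : ∀ i j, 0 ≤ lam i j := fun i j => mul_nonneg (hX0 j) (hm _ _)
  have hZ1 : ∀ i, (Z i).1 = ∑ j, lam i j • b j (i + s j) := by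
    intro i
    simp only [Z, Y, hat, lam, Prod.fst_sum, Prod.smul_fst, smul_smul]
  have hZ2 : ∀ i, (Z i).2 = ∑ j, lam i j := by
    intro i
    simp only [Z, Y, hat, lam, Prod.snd_sum, Prod.smul_snd, smul_eq_mul, mul_one]
  have hpos : 0 < (Z 0).2 := by
    have h1 : ∑ i, (Z i).2 = ∑ j, X j * ∑ t, m j t := by
      simp only [hZ2, lam]
      rw [Finset.sum_comm]
      refine Finset.sum_congr rfl fun j _ => ?_
      rw [← Finset.mul_sum]
      congr 1
      exact Equiv.sum_comp (Equiv.addRight (s j)) (fun t => m j t)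
    have h2 : 0 < ∑ j, X j * ∑ t, m j t := by
      obtain ⟨j, hj⟩ : ∃ j, 0 < X j := by
        by_contra hno
        push Not at hno
        have : ∑ j, X j ≤ 0 := Finset.sum_nonpos fun j _ => hno j
        linarith
      refine Finset.sum_pos' (fun j _ => mul_nonneg (hX0 j) (hm' j).le) ⟨j, Finset.mem_univ _, ?_⟩
      exact mul_pos hj (hm' j)
    rw [← h1] at h2
    have h3 : ∑ i : Fin (n + 1), (Z i).2 = ((n : ℝ) + 1) * (Z 0).2 := by
      rw [Finset.sum_congr rfl (fun i _ => by rw [hZ i])]
      rw [Finset.sum_const, Finset.card_univ, Fintype.card_fin, nsmul_eq_mul]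
      push_cast
      ring
    rw [h3] at h2
    have h4 : (0 : ℝ) < (n : ℝ) + 1 := by positivity
    exact (mul_pos_iff_of_pos_left h4).1 h2
  refine ⟨((Z 0).2)⁻¹ • (Z 0).1, ?_⟩
  rw [Set.mem_iInter]
  intro i
  rw [← hZ i, hZ1 i, hZ2 i, Finset.smul_sum]
  have h5 : ∀ j, ((∑ j, lam i j)⁻¹ • lam i j • b j (i + s j)) =
      ((∑ j, lam i j)⁻¹ * lam i j) • b j (i + s j) := fun j => smul_smul _ _ _
  simp only [h5]
  have hpos' : 0 < ∑ j, lam i j := by rw [← hZ2, hZ i]; exact hpos
  refine (convex_convexHull ℝ _).sum_mem (fun j _ => mul_nonneg (inv_nonneg.2 hpos'.le) (hlam i j))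
    ?_ (fun j _ => subset_convexHull ℝ _ ⟨j, rfl⟩)
  rw [← Finset.mul_sum]
  exact inv_mul_cancel₀ hpos'.ne'

/-- choosing `n+1` points and weights in one class -/
private lemma choose_class {d n : ℕ} (g : EuclideanSpace ℝ (Fin d) →ᵃ[ℝ] ℝ)
    (C : Finset (EuclideanSpace ℝ (Fin d))) (hC : 2 * (n + 1) - 1 ≤ C.card) :
    ∃ (b : Fin (n + 1) → EuclideanSpace ℝ (Fin d)) (m : Fin (n + 1) → ℝ),
      (∀ t, b t ∈ C) ∧ Function.Injective b ∧ (∀ t, 0 ≤ m t) ∧ (0 < ∑ t, m t) ∧
      ∀ t t', m t * g (b t) = m t' * g (b t') := by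
  classical
  set P := C.filter (fun v => 0 < g v) with hP
  set N := C.filter (fun v => g v < 0) with hN
  set O := C.filter (fun v => g v = 0) with hO
  have hsum : P.card + N.card + O.card = C.card := by
    have h1 := Finset.card_filter_add_card_filter_not (s := C) (fun v => 0 < g v)
    have h2 := Finset.card_filter_add_card_filter_not (s := C.filter (fun v => ¬ 0 < g v))
      (fun v => g v < 0)
    rw [Finset.filter_filter, Finset.filter_filter] at h2
    have h3 : C.filter (fun v => ¬ 0 < g v ∧ g v < 0) = N := by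
      rw [hN]; ext v; simp only [Finset.mem_filter]
      constructor
      · rintro ⟨a, _, c⟩; exact ⟨a, c⟩
      · rintro ⟨a, c⟩; exact ⟨a, not_lt.2 c.le, c⟩
    have h4 : C.filter (fun v => ¬ 0 < g v ∧ ¬ g v < 0) = O := by
      rw [hO]; ext v; simp only [Finset.mem_filter]
      constructor
      · rintro ⟨a, c, e⟩; exact ⟨a, le_antisymm (not_lt.1 c) (not_lt.1 e)⟩
      · rintro ⟨a, c⟩; exact ⟨a, by rw [c]; simp⟩
    rw [h3, h4] at h2
    rw [← hP] at h1
    omega
  have key : ∀ S : Finset (EuclideanSpace ℝ (Fin d)), S ⊆ C → n + 1 ≤ S.card →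
      ∃ b : Fin (n + 1) → EuclideanSpace ℝ (Fin d), (∀ t, b t ∈ S) ∧ Function.Injective b := by
    intro S _ hS
    obtain ⟨T, hTS, hT⟩ := Finset.exists_subset_card_eq hS
    let e := T.equivFinOfCardEq hT
    exact ⟨fun t => (e.symm t : EuclideanSpace ℝ (Fin d)), fun t => hTS (e.symm t).2,
      fun t t' h => e.symm.injective (Subtype.ext h)⟩
  by_cases h1 : n + 1 ≤ P.card
  · obtain ⟨b, hb, hbi⟩ := key P (Finset.filter_subset _ _) h1
    have hpos : ∀ t, 0 < g (b t) := fun t => (Finset.mem_filter.1 (hb t)).2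
    refine ⟨b, fun t => (g (b t))⁻¹, fun t => (Finset.mem_filter.1 (hb t)).1, hbi,
      fun t => (inv_pos.2 (hpos t)).le, Finset.sum_pos (fun t _ => inv_pos.2 (hpos t))
        Finset.univ_nonempty, fun t t' => ?_⟩
    rw [inv_mul_cancel₀ (hpos t).ne', inv_mul_cancel₀ (hpos t').ne']
  by_cases h2 : n + 1 ≤ N.card
  · obtain ⟨b, hb, hbi⟩ := key N (Finset.filter_subset _ _) h2
    have hneg : ∀ t, g (b t) < 0 := fun t => (Finset.mem_filter.1 (hb t)).2
    refine ⟨b, fun t => (-g (b t))⁻¹, fun t => (Finset.mem_filter.1 (hb t)).1, hbi,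
      fun t => (inv_pos.2 (neg_pos.2 (hneg t))).le,
      Finset.sum_pos (fun t _ => inv_pos.2 (neg_pos.2 (hneg t))) Finset.univ_nonempty,
      fun t t' => ?_⟩
    have e : ∀ t, (-g (b t))⁻¹ * g (b t) = -1 := by
      intro t
      have := (hneg t).ne
      field_simp
    rw [e, e]
  · have h3 : 0 < O.card := by omega
    obtain ⟨v, hv⟩ := Finset.card_pos.1 h3
    have hvC : v ∈ C := (Finset.mem_filter.1 hv).1
    have hv0 : g v = 0 := (Finset.mem_filter.1 hv).2
    have h4 : n ≤ (C.erase v).card := by
      rw [Finset.card_erase_of_mem hvC]; omega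
    obtain ⟨T, hTS, hT⟩ := Finset.exists_subset_card_eq h4
    let e := T.equivFinOfCardEq hT
    have hvT : ∀ t, (e.symm t : EuclideanSpace ℝ (Fin d)) ≠ v := fun t =>
      (Finset.mem_erase.1 (hTS (e.symm t).2)).1
    refine ⟨Fin.cons v (fun t => (e.symm t : EuclideanSpace ℝ (Fin d))), Fin.cons 1 (fun _ => 0),
      ?_, ?_, ?_, ?_, ?_⟩
    · intro t
      refine Fin.cases hvC (fun t => ?_) t
      exact (Finset.mem_erase.1 (hTS (e.symm t).2)).2
    · rw [Fin.cons_injective_iff]
      refine ⟨?_, fun t t' h => e.symm.injective (Subtype.ext h)⟩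
      rintro ⟨t, ht⟩
      exact hvT t ht
    · intro t
      refine Fin.cases (by simp) (fun t => by simp) t
    · rw [Fin.sum_univ_succ]
      simp
    · have e : ∀ t : Fin (n + 1), (Fin.cons 1 (fun _ => 0) : Fin (n + 1) → ℝ) t *
          g ((Fin.cons v (fun t => (e.symm t : EuclideanSpace ℝ (Fin d))) :
            Fin (n + 1) → EuclideanSpace ℝ (Fin d)) t) = 0 := by
        intro t
        refine Fin.cases (by simp [hv0]) (fun t => by simp) t
      intro t t'
      rw [e, e]

private lemma upper :
    ∀ r k d : ℕ, 1 ≤ r → k < d → r * (d - k) ≤ d →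
      ∀ g : Fin (k + 1) → (EuclideanSpace ℝ (Fin d) →ᵃ[ℝ] ℝ), LinearIndependent ℝ g →
      ∀ C : Fin (k + 1) → Finset (EuclideanSpace ℝ (Fin d)),
          (∀ i j, i ≠ j → Disjoint (C i) (C j)) →
          (∀ i, 2 * r - 1 ≤ (C i).card) →
          (∀ i j, i ≠ j → ∀ x ∈ C j, g i x = 0) →
          ∃ a : Fin r → Fin (k + 1) → EuclideanSpace ℝ (Fin d),
            (∀ i j, a i j ∈ C j) ∧
            Function.Injective (fun p : Fin r × Fin (k + 1) => a p.1 p.2) ∧
            (⋂ i, convexHull ℝ (Set.range (a i))).Nonempty := by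
  intro r k d hr hkd hrd g hg C hdis hcard hvan
  obtain ⟨n, rfl⟩ : ∃ n, r = n + 1 := ⟨r - 1, by omega⟩
  choose b m hbC hbi hm hm' hbm using fun j => choose_class (n := n) (g j) (C j) (hcard j)
  set G : (EuclideanSpace ℝ (Fin d) × ℝ) →ₗ[ℝ] (Fin (k + 1) → ℝ) :=
    LinearMap.pi (fun i => lin (g i)) with hG
  have hfin : finrank ℝ (LinearMap.ker G) = d - k := by
    have h1 := LinearMap.finrank_range_add_finrank_ker G
    rw [LinearMap.range_eq_top.2 (surj g hg), finrank_top] at h1
    simp at h1
    omega
  have hk : n * (d - k) + 1 ≤ k + 1 := by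
    have h1 : (n + 1) * (d - k) = n * (d - k) + (d - k) := by ring
    omega
  obtain ⟨s, hs⟩ := equalise (LinearMap.ker G) hfin hk b m hm hm' (by
    intro j t t'
    rw [LinearMap.mem_ker]
    funext i
    rw [hG, LinearMap.pi_apply, map_sub, map_smul, map_smul, lin_hat, lin_hat]
    by_cases hij : i = j
    · subst hij
      have := hbm i t t'
      simp [this]
    · rw [hvan i j hij _ (hbC j t), hvan i j hij _ (hbC j t')]
      simp)
  refine ⟨fun i j => b j (i + s j), fun i j => hbC j _, ?_, hs⟩
  rintro ⟨i, j⟩ ⟨i', j'⟩ h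
  simp only at h
  have hjj : j = j' := by
    by_contra hne
    exact Finset.disjoint_left.1 (hdis j j' hne) (hbC j _) (h ▸ hbC j' _)
  subst hjj
  have := hbi j h
  have : i = i' := by simpa using this
  rw [this]

/-- a point of a convex hull on which an affine functional is positive forces a positive vertex -/
private lemma exists_pos {d k : ℕ} (φ : EuclideanSpace ℝ (Fin d) →ᵃ[ℝ] ℝ)
    (a : Fin (k + 1) → EuclideanSpace ℝ (Fin d)) (x : EuclideanSpace ℝ (Fin d))
    (hx : x ∈ convexHull ℝ (Set.range a)) (h : 0 < φ x) : ∃ l, 0 < φ (a l) := by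
  by_contra hno
  push Not at hno
  have hconv : Convex ℝ {y | φ y ≤ 0} := by
    have : {y | φ y ≤ 0} = φ ⁻¹' (Set.Iic 0) := rfl
    rw [this]
    exact (convex_Iic (0 : ℝ)).affine_preimage φ
  have hsub : convexHull ℝ (Set.range a) ⊆ {y | φ y ≤ 0} := by
    refine convexHull_min ?_ hconv
    rintro _ ⟨l, rfl⟩
    exact hno l
  have := hsub hx
  simp only [Set.mem_setOf_eq] at this
  linarith

private lemma lower (r k d : ℕ) (hr : 1 ≤ r)
    (g : Fin (k + 1) → (EuclideanSpace ℝ (Fin d) →ᵃ[ℝ] ℝ))
    (hg : LinearIndependent ℝ (fun i => (g i).linear)) :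
    ∃ C : Fin (k + 1) → Finset (EuclideanSpace ℝ (Fin d)),
          (∀ i j, i ≠ j → Disjoint (C i) (C j)) ∧
          (∀ i, (C i).card = 2 * r - 2) ∧
          (∀ i j, i ≠ j → ∀ x ∈ C j, g i x = 0) ∧
          ¬ ∃ a : Fin r → Fin (k + 1) → EuclideanSpace ℝ (Fin d),
            (∀ i j, a i j ∈ C j) ∧
            Function.Injective (fun p : Fin r × Fin (k + 1) => a p.1 p.2) ∧
            (⋂ i, convexHull ℝ (Set.range (a i))).Nonempty := by
  classical
  have hsurj : Function.Surjective (LinearMap.pi (fun i => (g i).linear) :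
      EuclideanSpace ℝ (Fin d) →ₗ[ℝ] (Fin (k + 1) → ℝ)) := by
    rw [← LinearMap.dualMap_injective_iff]
    intro φ ψ h
    rw [← sub_eq_zero]
    rw [← sub_eq_zero, ← map_sub] at h
    set χ := φ - ψ with hχ
    have h1 : ∑ i, χ (Pi.single i 1) • (g i).linear = 0 := by
      ext v
      have h2 := LinearMap.congr_fun h v
      rw [LinearMap.dualMap_apply] at h2
      have h4 : (LinearMap.pi (fun i => (g i).linear) :
        EuclideanSpace ℝ (Fin d) →ₗ[ℝ] (Fin (k + 1) → ℝ)) v =
          ∑ i, ((g i).linear v) • (Pi.single i (1 : ℝ) : Fin (k + 1) → ℝ) := by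
        funext i
        simp [Finset.sum_apply, Pi.single_apply]
      rw [h4, map_sum] at h2
      simp only [map_smul, smul_eq_mul, LinearMap.zero_apply] at h2
      rw [LinearMap.zero_apply, ← h2, LinearMap.sum_apply]
      exact Finset.sum_congr rfl fun i _ => by rw [LinearMap.smul_apply, smul_eq_mul, mul_comm]
    have h2 := Fintype.linearIndependent_iff.1 hg _ h1
    refine LinearMap.pi_ext' fun i => ?_
    ext
    simpa using h2 i
  have haff : ∀ i v, g i v = (g i).linear v + g i 0 := by
    intro i v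
    have := (g i).linearMap_vsub v 0
    simp only [vsub_eq_sub, sub_zero] at this
    rw [this]; ring
  obtain ⟨o, ho⟩ := hsurj (fun i => - g i 0)
  have ho' : ∀ i, g i o = 0 := by
    intro i
    have := congrFun ho i
    rw [LinearMap.pi_apply] at this
    rw [haff, this]; ring
  choose e he using fun j => hsurj (Pi.single j (1 : ℝ))
  have hgv : ∀ i j (t : ℝ), g i (o + t • e j) = if i = j then t else 0 := by
    intro i j t
    have h1 := congrFun (he j) i
    rw [LinearMap.pi_apply] at h1
    have h2 := congrFun ho i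
    rw [LinearMap.pi_apply] at h2
    rw [haff, map_add, map_smul, h1, h2]
    by_cases hij : i = j
    · subst hij; simp
    · simp [hij]
  let T : Finset ℤ := (Finset.Icc (-((r : ℤ) - 1)) ((r : ℤ) - 1)).erase 0
  have hTcard : T.card = 2 * r - 2 := by
    rw [Finset.card_erase_of_mem (by rw [Finset.mem_Icc]; omega), Int.card_Icc]
    omega
  let C : Fin (k + 1) → Finset (EuclideanSpace ℝ (Fin d)) := fun j =>
    T.image (fun t : ℤ => o + (t : ℝ) • e j)
  have hmem : ∀ j x, x ∈ C j → ∃ t : ℤ, t ∈ T ∧ x = o + (t : ℝ) • e j := by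
    intro j x hx
    obtain ⟨t, ht, rfl⟩ := Finset.mem_image.1 hx
    exact ⟨t, ht, rfl⟩
  have hself : ∀ j x, x ∈ C j → g j x ≠ 0 := by
    intro j x hx
    obtain ⟨t, ht, rfl⟩ := hmem j x hx
    rw [hgv]
    simp only [if_true]
    exact_mod_cast (Finset.mem_erase.1 ht).1
  have hother : ∀ i j, i ≠ j → ∀ x ∈ C j, g i x = 0 := by
    intro i j hij x hx
    obtain ⟨t, ht, rfl⟩ := hmem j x hx
    rw [hgv, if_neg hij]
  refine ⟨C, ?_, ?_, hother, ?_⟩
  · intro i j hij
    rw [Finset.disjoint_left]
    intro x hxi hxj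
    exact hself i x hxi (hother i j hij x hxj)
  · intro j
    rw [Finset.card_image_of_injective, hTcard]
    intro t t' h
    have h1 := congrArg (g j) h
    simp only [hgv, if_true] at h1
    exact_mod_cast h1
  · rintro ⟨a, haC, hinj, x, hx⟩
    rw [Set.mem_iInter] at hx
    have hinj' : ∀ j i i', a i j = a i' j → i = i' := by
      intro j i i' h
      have := @hinj (i, j) (i', j) h
      exact congrArg Prod.fst this
    -- pigeonhole on one side
    have pig : ∀ (j : Fin (k + 1)) (U : Finset ℤ), U ⊆ T → U.card ≤ r - 1 →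
        ¬ ∀ i, ∃ t ∈ U, a i j = o + (t : ℝ) • e j := by
      intro j U _ hU hall
      choose t ht ha using hall
      have hti : Function.Injective t := by
        intro i i' h
        exact hinj' j i i' (by rw [ha i, ha i', h])
      have h1 : (Finset.univ.image t).card ≤ U.card := Finset.card_le_card (by
        intro y hy
        obtain ⟨i, _, rfl⟩ := Finset.mem_image.1 hy
        exact ht i)
      rw [Finset.card_image_of_injective _ hti, Finset.card_univ, Fintype.card_fin] at h1
      omega
    have hzero : ∀ j, g j x = 0 := by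
      intro j
      rcases lt_trichotomy (g j x) 0 with h | h | h
      · exfalso
        refine pig j (T.filter (fun t => t < 0)) (Finset.filter_subset _ _) ?_ ?_
        · have : T.filter (fun t => t < 0) ⊆ Finset.Icc (-((r : ℤ) - 1)) (-1) := by
            intro t ht
            rw [Finset.mem_filter, Finset.mem_erase, Finset.mem_Icc] at ht
            rw [Finset.mem_Icc]; omega
          have h1 := Finset.card_le_card this
          rw [Int.card_Icc] at h1
          omega
        · intro i
          obtain ⟨l, hl⟩ := exists_pos (-(g j)) (a i) x (hx i) (by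
            show 0 < -(g j x)
            linarith)
          have hl' : 0 < -(g j (a i l)) := hl
          have hlj : j = l := by
            by_contra hne
            rw [hother j l hne _ (haC i l)] at hl'
            simp at hl'
          subst hlj
          obtain ⟨t, ht, hat⟩ := hmem j _ (haC i j)
          refine ⟨t, ?_, hat⟩
          rw [hat, hgv, if_pos rfl] at hl'
          rw [Finset.mem_filter]
          refine ⟨ht, ?_⟩
          have : (t : ℝ) < 0 := by linarith
          exact_mod_cast this
      · exact h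
      · exfalso
        refine pig j (T.filter (fun t => 0 < t)) (Finset.filter_subset _ _) ?_ ?_
        · have : T.filter (fun t => 0 < t) ⊆ Finset.Icc 1 ((r : ℤ) - 1) := by
            intro t ht
            rw [Finset.mem_filter, Finset.mem_erase, Finset.mem_Icc] at ht
            rw [Finset.mem_Icc]; omega
          have h1 := Finset.card_le_card this
          rw [Int.card_Icc] at h1
          omega
        · intro i
          obtain ⟨l, hl⟩ := exists_pos (g j) (a i) x (hx i) h
          have hlj : j = l := by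
            by_contra hne
            rw [hother j l hne _ (haC i l)] at hl
            simp at hl
          subst hlj
          obtain ⟨t, ht, hat⟩ := hmem j _ (haC i j)
          refine ⟨t, ?_, hat⟩
          rw [hat, hgv, if_pos rfl] at hl
          rw [Finset.mem_filter]
          exact ⟨ht, by exact_mod_cast hl⟩
    -- a functional positive on one rainbow set and zero at the point
    have i0 : Fin r := ⟨0, by omega⟩
    have hfin : ∀ x' ∈ convexHull ℝ (Set.range (a i0)), ∃ j, g j x' ≠ 0 := by
      have hs : ∀ x' ∈ convexHull ℝ (Set.range (a i0)),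
          0 < ∑ j, (SignType.sign (g j (a i0 j)) : ℝ) * g j x' := by
        have hconv : Convex ℝ {y : EuclideanSpace ℝ (Fin d) |
            0 < ∑ j, (SignType.sign (g j (a i0 j)) : ℝ) * g j y} := by
          intro y hy z hz p q hp hq hpq
          simp only [Set.mem_setOf_eq] at hy hz ⊢
          have h1 : ∀ j, g j (p • y + q • z) = p * g j y + q * g j z := by
            intro j
            have := Convex.combo_affine_apply (f := g j) (x := y) (y := z) hpq
            simpa using this
          have h2 : ∑ j, (SignType.sign (g j (a i0 j)) : ℝ) * g j (p • y + q • z) =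
              p * ∑ j, (SignType.sign (g j (a i0 j)) : ℝ) * g j y +
              q * ∑ j, (SignType.sign (g j (a i0 j)) : ℝ) * g j z := by
            rw [Finset.mul_sum, Finset.mul_sum, ← Finset.sum_add_distrib]
            refine Finset.sum_congr rfl fun j _ => ?_
            rw [h1]; ring
          rw [h2]
          rcases hp.lt_or_eq with hp' | hp'
          · have := mul_pos hp' hy
            have := mul_nonneg hq hz.le
            linarith
          · have hq1 : q = 1 := by linarith
            rw [← hp', hq1]; linarith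
        have hsub : convexHull ℝ (Set.range (a i0)) ⊆ {y : EuclideanSpace ℝ (Fin d) |
            0 < ∑ j, (SignType.sign (g j (a i0 j)) : ℝ) * g j y} := by
          refine convexHull_min ?_ hconv
          rintro _ ⟨l, rfl⟩
          show 0 < ∑ j, (SignType.sign (g j (a i0 j)) : ℝ) * g j (a i0 l)
          rw [Finset.sum_eq_single l]
          · rw [sign_mul_self]
            exact abs_pos.2 (hself l _ (haC i0 l))
          · intro j _ hjl
            rw [hother j l hjl _ (haC i0 l), mul_zero]
          · intro h; exact absurd (Finset.mem_univ _) h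
        exact fun x' hx' => hsub hx'
      intro x' hx'
      by_contra hno
      push Not at hno
      have := hs x' hx'
      simp [hno] at this
    obtain ⟨j, hj⟩ := hfin x (hx i0)
    exact hj (hzero j)

/-- Let `g 0, …, g k` be linearly independent affine functionals on `ℝ^d`, where `k < d` and
`r (d - k) ≤ d`. If the colour class `C j` lies in the flat where all `g i` with `i ≠ j` vanish,
then classes of size at least `2r - 1` contain `r` disjoint rainbow sets whose hulls share a point;
if moreover the linear parts of the `g i` are linearly independent, then classes of size `2r - 2`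
lying in these flats need not. -/
theorem result :
    ∀ r k d : ℕ, 1 ≤ r → k < d → r * (d - k) ≤ d →
      ∀ g : Fin (k + 1) → (EuclideanSpace ℝ (Fin d) →ᵃ[ℝ] ℝ), LinearIndependent ℝ g →
      (∀ C : Fin (k + 1) → Finset (EuclideanSpace ℝ (Fin d)),
          (∀ i j, i ≠ j → Disjoint (C i) (C j)) →
          (∀ i, 2 * r - 1 ≤ (C i).card) →
          (∀ i j, i ≠ j → ∀ x ∈ C j, g i x = 0) →
          ∃ a : Fin r → Fin (k + 1) → EuclideanSpace ℝ (Fin d),
            (∀ i j, a i j ∈ C j) ∧
            Function.Injective (fun p : Fin r × Fin (k + 1) => a p.1 p.2) ∧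
            (⋂ i, convexHull ℝ (Set.range (a i))).Nonempty) ∧
      (LinearIndependent ℝ (fun i => (g i).linear) →
        ∃ C : Fin (k + 1) → Finset (EuclideanSpace ℝ (Fin d)),
          (∀ i j, i ≠ j → Disjoint (C i) (C j)) ∧
          (∀ i, (C i).card = 2 * r - 2) ∧
          (∀ i j, i ≠ j → ∀ x ∈ C j, g i x = 0) ∧
          ¬ ∃ a : Fin r → Fin (k + 1) → EuclideanSpace ℝ (Fin d),
            (∀ i j, a i j ∈ C j) ∧
            Function.Injective (fun p : Fin r × Fin (k + 1) => a p.1 p.2) ∧
            (⋂ i, convexHull ℝ (Set.range (a i))).Nonempty) :=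
  fun r k d hr hkd hrd g hg =>
    ⟨upper r k d hr hkd hrd g hg, fun hl => lower r k d hr g hl⟩

end Pool.Agent.Results.MP_90aff6_co.ConcurrentFlats
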