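import Mathlib
import Pool.Agent.Helper612_TV.Fourier

/-!
# Colored Tverberg numbers of type B when the number of sets is not a prime power
-/

set_option autoImplicit false

namespace Pool.Agent.Results.MP_90aff6_co.PrimeBound

open Pool.Agent.Helper612.TV

/-- values of the auxiliary points in their own new coordinate: `p - 1` points at `1`, `p - 1`
points at `-1`, and one point at `0` -/
private def eta (p : ℕ) (t : Fin (2 * p - 1)) : ℝ :=
  if t.val < p - 1 then 1 else if t.val < 2 * p - 2 then -1 else 0

/-- positions in the suspended space -/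
private def pos {d m p k : ℕ} (C : Fin (k + 1) → Finset (EuclideanSpace ℝ (Fin d))) :
    (Σ j, {v // v ∈ C j}) ⊕ (Fin m × Fin (2 * p - 1)) → (Fin d ⊕ Fin m) → ℝ
  | Sum.inl x, Sum.inl e => x.2.1 e
  | Sum.inl _, Sum.inr _ => 0
  | Sum.inr _, Sum.inl _ => 0
  | Sum.inr x, Sum.inr s => if x.1 = s then eta p x.2 else 0

private def cls {d m p k : ℕ} (C : Fin (k + 1) → Finset (EuclideanSpace ℝ (Fin d))) :
    (Σ j, {v // v ∈ C j}) ⊕ (Fin m × Fin (2 * p - 1)) → Fin (k + 1) ⊕ Fin m
  | Sum.inl x => Sum.inl x.1
  | Sum.inr x => Sum.inr x.1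

/-- Let `p` be an odd prime, `r ≤ p`, `k < d` and `r + p (d - k - 1) ≤ d`. Then any `k + 1`
pairwise disjoint finite colour classes in `ℝ^d` with at least `2 p - 1` points each contain `r`
pairwise disjoint rainbow sets whose convex hulls have a common point. -/
theorem result (p r k d : ℕ) (hp : p.Prime) (hp2 : 2 < p) (hr : r ≤ p) (hk : k < d)
    (hd : r + p * (d - k - 1) ≤ d) :
    ∀ C : Fin (k + 1) → Finset (EuclideanSpace ℝ (Fin d)),
      (∀ i j, i ≠ j → Disjoint (C i) (C j)) →
      (∀ i, 2 * p - 1 ≤ (C i).card) →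
      ∃ a : Fin r → Fin (k + 1) → EuclideanSpace ℝ (Fin d),
        (∀ i j, a i j ∈ C j) ∧
        Function.Injective (fun q : Fin r × Fin (k + 1) => a q.1 q.2) ∧
        (⋂ i, convexHull ℝ (Set.range (a i))).Nonempty := by
  classical
  intro C hdis hcard
  have : Fact p.Prime := ⟨hp⟩
  obtain ⟨m, hm⟩ := Nat.exists_eq_add_of_le hr
  let I : Type := (Σ j, {v // v ∈ C j}) ⊕ (Fin m × Fin (2 * p - 1))
  let c : I → Fin (k + 1) ⊕ Fin m := cls (p := p) C
  have hfib : ∀ j, 2 * p - 1 ≤ (Finset.univ.filter (fun x => c x = j)).card := by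
    rintro (j | s)
    · refine (hcard j).trans ?_
      rw [← Finset.card_attach]
      refine Finset.card_le_card_of_injOn (fun v => (Sum.inl ⟨j, v⟩ : I)) ?_ ?_
      · intro v _
        exact Finset.mem_coe.2 (Finset.mem_filter.2 ⟨Finset.mem_univ _, rfl⟩)
      · intro v _ v' _ h
        have h1 : (⟨j, v⟩ : Σ j, {v // v ∈ C j}) = ⟨j, v'⟩ := Sum.inl.inj h
        simpa using h1
    · have h0 : (Finset.univ : Finset (Fin (2 * p - 1))).card = 2 * p - 1 := by simp
      refine h0.symm.le.trans ?_
      refine Finset.card_le_card_of_injOn (fun t => (Sum.inr (s, t) : I)) ?_ ?_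
      · intro v _
        exact Finset.mem_coe.2 (Finset.mem_filter.2 ⟨Finset.mem_univ _, rfl⟩)
      · intro v _ v' _ h
        have h1 : ((s, v) : Fin m × Fin (2 * p - 1)) = (s, v') := Sum.inr.inj h
        exact (Prod.mk.inj h1).2
  have hdim : (p - 1) * ((d + m) + 1) + 1 ≤ p * Fintype.card (Fin (k + 1) ⊕ Fin m) := by
    rw [Fintype.card_sum, Fintype.card_fin, Fintype.card_fin]
    obtain ⟨c', hc'⟩ := Nat.exists_eq_add_of_lt hk
    obtain ⟨p', rfl⟩ : ∃ p', p = p' + 1 := ⟨p - 1, by omega⟩
    have h1 : d - k - 1 = c' := by omega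
    rw [h1] at hd
    have h2 : p' + 1 - 1 = p' := rfl
    rw [h2]
    nlinarith
  obtain ⟨π, hπ1, hπ2, lam, z, hl0, hl1, hz⟩ := vz p (by omega) c hfib (d + m) hdim
    (fun x e => pos (p := p) C x (finSumFinEquiv.symm e))
  -- the labels in the new classes
  have hex : ∀ g s, ∃ t : Fin (2 * p - 1), π g (Sum.inr s) = Sum.inr (s, t) := by
    intro g s
    have h1 := hπ1 g (Sum.inr s)
    rcases hx : π g (Sum.inr s) with x | x
    · rw [hx] at h1
      exact absurd h1 (by simp [c, cls])
    · rw [hx] at h1
      have h2 : x.1 = s := by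
        have : (Sum.inr x.1 : Fin (k + 1) ⊕ Fin m) = Sum.inr s := h1
        simpa using this
      exact ⟨x.2, by rw [← h2]⟩
  choose t ht using hex
  have htinj : ∀ s, Function.Injective (fun g => t g s) := by
    intro s g g' h
    apply hπ2 (Sum.inr s)
    simp only at h ⊢
    rw [ht, ht, h]
  -- the labels in the old classes
  have hex2 : ∀ g j, ∃ v : {v // v ∈ C j}, π g (Sum.inl j) = Sum.inl ⟨j, v⟩ := by
    intro g j
    have h1 := hπ1 g (Sum.inl j)
    rcases hx : π g (Sum.inl j) with x | x
    · rw [hx] at h1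
      have h2 : x.1 = j := by
        have : (Sum.inl x.1 : Fin (k + 1) ⊕ Fin m) = Sum.inl j := h1
        simpa using this
      subst h2
      exact ⟨x.2, rfl⟩
    · rw [hx] at h1
      exact absurd h1 (by simp [c, cls])
  choose v hv using hex2
  have hvinj : ∀ j, Function.Injective (fun g => v g j) := by
    intro j g g' h
    apply hπ2 (Sum.inl j)
    simp only at h ⊢
    rw [hv, hv, h]
  -- the equations coordinate by coordinate
  have hzs : ∀ g s, lam g (Sum.inr s) * eta p (t g s) = z (finSumFinEquiv (Sum.inr s)) := by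
    intro g s
    have h1 := congrFun (hz g) (finSumFinEquiv (Sum.inr s))
    rw [Finset.sum_apply, Fintype.sum_sum_type] at h1
    rw [← h1]
    simp only [Pi.smul_apply, smul_eq_mul, Equiv.symm_apply_apply, hv, ht, pos, mul_zero,
      Finset.sum_const_zero, zero_add]
    rw [Finset.sum_eq_single s]
    · simp
    · intro s' _ hs'
      simp [hs']
    · intro hh; exact absurd (Finset.mem_univ _) hh
  have hze : ∀ g e, ∑ j, lam g (Sum.inl j) * (v g j).1 e = z (finSumFinEquiv (Sum.inl e)) := by
    intro g e
    have h1 := congrFun (hz g) (finSumFinEquiv (Sum.inl e))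
    rw [Finset.sum_apply, Fintype.sum_sum_type] at h1
    rw [← h1]
    simp only [Pi.smul_apply, smul_eq_mul, Equiv.symm_apply_apply, hv, ht, pos, mul_zero,
      Finset.sum_const_zero, add_zero]
  have hcardp : Fintype.card (ZMod p) = p := ZMod.card p
  -- the new coordinates of the common point vanish
  have hz0 : ∀ s, z (finSumFinEquiv (Sum.inr s)) = 0 := by
    intro s
    by_contra hne
    rcases lt_or_gt_of_ne hne with hlt | hgt
    · -- every label has value `-1`
      have h1 : ∀ g, p - 1 ≤ (t g s).val ∧ (t g s).val < 2 * p - 2 := by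
        intro g
        have h2 := hzs g s
        rw [← h2] at hlt
        unfold eta at hlt
        split_ifs at hlt with h3 h4
        · linarith [hl0 g (Sum.inr s)]
        · exact ⟨by omega, h4⟩
        · simp at hlt
      have h2 : Fintype.card (ZMod p) ≤ Fintype.card (Fin (p - 1)) := by
        refine Fintype.card_le_of_injective
          (fun g => (⟨(t g s).val - (p - 1), by have := h1 g; omega⟩ : Fin (p - 1))) ?_
        intro g g' h
        apply htinj s
        simp only [Fin.mk.injEq] at h ⊢
        have := h1 g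
        have := h1 g'
        exact Fin.ext (by omega)
      rw [hcardp, Fintype.card_fin] at h2
      omega
    · have h1 : ∀ g, (t g s).val < p - 1 := by
        intro g
        have h2 := hzs g s
        rw [← h2] at hgt
        unfold eta at hgt
        split_ifs at hgt with h3 h4
        · exact h3
        · linarith [hl0 g (Sum.inr s)]
        · simp at hgt
      have h2 : Fintype.card (ZMod p) ≤ Fintype.card (Fin (p - 1)) := by
        refine Fintype.card_le_of_injective
          (fun g => (⟨(t g s).val, h1 g⟩ : Fin (p - 1))) ?_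
        intro g g' h
        apply htinj s
        simp only [Fin.mk.injEq] at h ⊢
        exact Fin.ext h
      rw [hcardp, Fintype.card_fin] at h2
      omega
  -- bad rows
  let B : Finset (ZMod p) := Finset.univ.filter (fun g => ∃ s, (t g s).val = 2 * p - 2)
  have hB : B.card ≤ m := by
    have h1 : B ⊆ Finset.univ.biUnion (fun s : Fin m =>
        Finset.univ.filter (fun g => (t g s).val = 2 * p - 2)) := by
      intro g hg
      obtain ⟨s, hs⟩ := (Finset.mem_filter.1 hg).2
      rw [Finset.mem_biUnion]
      exact ⟨s, Finset.mem_univ _, Finset.mem_filter.2 ⟨Finset.mem_univ _, hs⟩⟩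
    refine (Finset.card_le_card h1).trans (Finset.card_biUnion_le.trans ?_)
    have h2 : ∀ s : Fin m, (Finset.univ.filter (fun g => (t g s).val = 2 * p - 2)).card ≤ 1 := by
      intro s
      rw [Finset.card_le_one]
      intro g hg g' hg'
      apply htinj s
      exact Fin.ext (by
        rw [(Finset.mem_filter.1 hg).2, (Finset.mem_filter.1 hg').2])
    refine (Finset.sum_le_sum (fun s _ => h2 s)).trans ?_
    simp
  have hgood : ∀ g, g ∉ B → ∀ s, lam g (Sum.inr s) = 0 := by
    intro g hg s
    have h1 := hzs g s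
    rw [hz0 s] at h1
    rcases mul_eq_zero.1 h1 with h2 | h2
    · exact h2
    · exfalso
      apply hg
      refine Finset.mem_filter.2 ⟨Finset.mem_univ _, s, ?_⟩
      unfold eta at h2
      have := (t g s).isLt
      split_ifs at h2 with h3 h4
      · norm_num at h2
      · norm_num at h2
      · omega
  -- choose `r` good rows
  have hcardB : r ≤ Fintype.card {g : ZMod p // g ∉ B} := by
    rw [Fintype.card_subtype_compl, Fintype.card_coe, hcardp]
    omega
  obtain ⟨emb⟩ : Nonempty (Fin r ↪ {g : ZMod p // g ∉ B}) :=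
    Function.Embedding.nonempty_of_card_le (by rw [Fintype.card_fin]; exact hcardB)
  refine ⟨fun i j => (v (emb i).1 j).1, fun i j => (v (emb i).1 j).2, ?_, ?_⟩
  · rintro ⟨i, j⟩ ⟨i', j'⟩ h
    simp only at h
    have hj : j = j' := by
      by_contra hne
      have h1 := hdis j j' hne
      exact (Finset.disjoint_left.1 h1) (v (emb i).1 j).2 (by rw [h]; exact (v (emb i').1 j').2)
    subst hj
    have h2 : v (emb i).1 j = v (emb i').1 j := Subtype.ext h
    have h3 := hvinj j h2
    have h4 : emb i = emb i' := Subtype.ext h3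
    rw [emb.injective h4]
  · refine ⟨WithLp.toLp 2 (fun e => z (finSumFinEquiv (Sum.inl e))), ?_⟩
    rw [Set.mem_iInter]
    intro i
    have h1 : WithLp.toLp 2 (fun e => z (finSumFinEquiv (Sum.inl e))) =
        ∑ j, lam (emb i).1 (Sum.inl j) • (v (emb i).1 j).1 := by
      ext e
      rw [WithLp.ofLp_sum, Finset.sum_apply]
      simp only [WithLp.ofLp_smul, Pi.smul_apply, smul_eq_mul]
      exact (hze (emb i).1 e).symm
    rw [h1]
    refine (convex_convexHull ℝ _).sum_mem (fun j _ => hl0 _ _) ?_ ?_
    · have h2 := hl1 (emb i).1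
      rw [Fintype.sum_sum_type, Finset.sum_eq_zero (s := (Finset.univ : Finset (Fin m)))
        (fun s _ => hgood _ (emb i).2 s), add_zero] at h2
      exact h2
    · intro j _
      exact subset_convexHull ℝ _ (Set.mem_range_self j)

end Pool.Agent.Results.MP_90aff6_co.PrimeBound
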